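import Mathlib
import Pool.Agent.Helper95.FL.StmtsG

/-!
# Short words are nontrivial (XT-W)
-/

set_option autoImplicit false

namespace Pool.Agent.Helper45.FL

open Pool.Agent.Helper95.FL Pool.Agent.Helper95.FL.FD Polynomial

variable {K : Type} [Field K] {m : ℕ} (F : FD K m)

lemma entry (s : Fin 3) (c : K) (R : Matrix (Fin 3) (Fin 3) K) (i j : Fin 3) :
    (sg s c * F.A z0 * R) i j = if i = s then c * ∑ b, F.A z0 s b * R b j else 0 := by
  rw [Matrix.mul_assoc, Matrix.mul_apply]
  by_cases hi : i = s
  · subst hi
    rw [if_pos rfl, Finset.sum_eq_single i]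
    · rw [Matrix.mul_apply]
      simp [sg]
    · intro b _ hb
      simp [sg, hb]
    · intro h
      exact absurd (Finset.mem_univ i) h
  · rw [if_neg hi]
    refine Finset.sum_eq_zero fun b _ => ?_
    simp [sg, hi]

lemma A_z0 (s b : Fin 3) : F.A z0 s b = if s = b then 1 else F.θ := by
  simp [A, z0]

/-- the polynomial matrix of a word -/
lemma key : ∀ (l : List (Fin 3 × F.Ch)) (p : Fin 3 × F.Ch), Word F.U (p :: l) →
    ∃ M : Fin 3 → Fin 3 → K[X], (∀ i j, (M i j).eval F.θ = mat (prodW (p :: l)) z0 i j) ∧
      (∀ i j k, F.τ ((M i j).coeff k) = (M i j).coeff k) ∧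
      (∀ i j k, l.length + 1 ≤ k → (M i j).coeff k = 0) ∧
      ∃ j₀ κ, κ ≠ 0 ∧ ∀ i j, (M i j).coeff l.length = if i = p.1 ∧ j = j₀ then κ else 0 := by
  intro l
  induction l with
  | nil =>
    rintro ⟨s, g⟩ hw
    obtain ⟨⟨c, hc, hg⟩, hg1⟩ := hw.1 (s, g) (by simp)
    have hc0 : c ≠ 0 := by
      rintro rfl
      apply hg1
      apply ch_ext
      intro ε
      rw [hg, mat_one, sg_zero]
    refine ⟨fun i j => if i = s ∧ j = s then C c else 0, ?_, ?_, ?_, s, c, hc0, ?_⟩
    · intro i j
      have : prodW [(s, g)] = g := by simp [prodW]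
      rw [this, hg]
      by_cases h : i = s ∧ j = s
      · simp [sg, h]
      · simp [sg, h]
    · intro i j k
      beta_reduce
      by_cases h : i = s ∧ j = s
      · rw [if_pos h, coeff_C]
        split_ifs
        · exact hc
        · exact map_zero _
      · rw [if_neg h, coeff_zero, map_zero]
    · intro i j k hk
      beta_reduce
      have hk0 : k ≠ 0 := by simp at hk; omega
      by_cases h : i = s ∧ j = s
      · rw [if_pos h, coeff_C, if_neg hk0]
      · rw [if_neg h, coeff_zero]
    · intro i j
      by_cases h : i = s ∧ j = s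
      · simp [h]
      · simp [h]
  | cons p' l' ih =>
    rintro ⟨s, g⟩ hw
    obtain ⟨⟨c, hc, hg⟩, hg1⟩ := hw.1 (s, g) (by simp)
    have hc0 : c ≠ 0 := by
      rintro rfl
      apply hg1
      apply ch_ext
      intro ε
      rw [hg, mat_one, sg_zero]
    have hw' : Word F.U (p' :: l') := ⟨fun q hq => hw.1 q (List.mem_cons_of_mem _ hq),
      (List.isChain_cons_cons.1 hw.2).2⟩
    have hne : s ≠ p'.1 := (List.isChain_cons_cons.1 hw.2).1
    obtain ⟨M', h1, h2, h3, j₀, κ, hκ, h4⟩ := ih p' hw'
    have hprod : prodW ((s, g) :: p' :: l') = g * prodW (p' :: l') := by simp [prodW]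
    let T : Fin 3 → K[X] := fun j => ∑ b, if b = s then 0 else M' b j
    have hT : ∀ j k, (T j).coeff k = ∑ b, if b = s then 0 else (M' b j).coeff k := by
      intro j k
      rw [finsetSum_coeff]
      refine Finset.sum_congr rfl fun b _ => ?_
      split_ifs <;> simp
    have hTe : ∀ j, (T j).eval F.θ = ∑ b, if b = s then 0 else (M' b j).eval F.θ := by
      intro j
      rw [eval_finsetSum]
      refine Finset.sum_congr rfl fun b _ => ?_
      split_ifs <;> simp
    let N : Fin 3 → K[X] := fun j => C c * (M' s j + X * T j)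
    have hN0 : ∀ j, (N j).coeff 0 = c * (M' s j).coeff 0 := by
      intro j
      simp only [N]
      rw [coeff_C_mul, coeff_add, coeff_X_mul_zero, add_zero]
    have hN1 : ∀ j k, (N j).coeff (k + 1) = c * ((M' s j).coeff (k + 1) + (T j).coeff k) := by
      intro j k
      simp only [N]
      rw [coeff_C_mul, coeff_add, coeff_X_mul]
    have hTτ : ∀ j k, F.τ ((T j).coeff k) = (T j).coeff k := by
      intro j k
      rw [hT, map_sum]
      refine Finset.sum_congr rfl fun b _ => ?_
      split_ifs
      · exact map_zero _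
      · exact h2 b j k
    have hNτ : ∀ j k, F.τ ((N j).coeff k) = (N j).coeff k := by
      intro j k
      cases k with
      | zero => rw [hN0, map_mul, hc, h2]
      | succ k => rw [hN1, map_mul, map_add, hc, h2, hTτ]
    have hN3 : ∀ j k, l'.length + 2 ≤ k → (N j).coeff k = 0 := by
      intro j k hk
      obtain ⟨k, rfl⟩ : ∃ k', k = k' + 1 := ⟨k - 1, by omega⟩
      rw [hN1, h3 _ _ _ (by omega), hT, Finset.sum_eq_zero, add_zero, mul_zero]
      intro b _
      split_ifs
      · rfl
      · exact h3 _ _ _ (by omega)
    have hN4 : ∀ j, (N j).coeff (l'.length + 1) = if j = j₀ then c * κ else 0 := by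
      intro j
      rw [hN1, h3 _ _ _ le_rfl, hT, zero_add, Finset.sum_eq_single p'.1]
      · rw [if_neg (Ne.symm hne), h4]
        by_cases hj : j = j₀ <;> simp [hj]
      · intro b _ hb
        split_ifs
        · rfl
        · rw [h4, if_neg (fun h => hb h.1)]
      · intro h
        exact absurd (Finset.mem_univ _) h
    refine ⟨fun i j => (if i = s ∧ j = s then C c else 0) + M' i j + if i = s then N j else 0,
      ?_, ?_, ?_, j₀, c * κ, mul_ne_zero hc0 hκ, ?_⟩
    · intro i j
      rw [hprod, mat_mul, hg, Matrix.add_apply, Matrix.add_apply, entry]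
      rw [eval_add, eval_add, h1]
      congr 1
      · congr 1
        by_cases h : i = s ∧ j = s
        · simp [sg, h]
        · simp [sg, h]
      · by_cases hi : i = s
        · rw [if_pos hi, if_pos hi]
          simp only [N]
          rw [eval_mul, eval_C, eval_add, eval_mul, eval_X, hTe, h1]
          congr 1
          have e : ∀ b, F.A z0 s b * mat (prodW (p' :: l')) z0 b j =
              (if b = s then mat (prodW (p' :: l')) z0 s j else 0) +
              F.θ * (if b = s then 0 else mat (prodW (p' :: l')) z0 b j) := by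
            intro b
            rw [A_z0]
            by_cases hb : b = s
            · subst hb; simp
            · rw [if_neg (Ne.symm hb), if_neg hb, if_neg hb, zero_add]
          rw [Finset.sum_congr rfl fun b _ => e b, Finset.sum_add_distrib, Finset.sum_ite_eq',
            if_pos (Finset.mem_univ _), ← Finset.mul_sum]
          congr 2
          refine Finset.sum_congr rfl fun b _ => ?_
          rw [h1]
        · rw [if_neg hi, if_neg hi, eval_zero]
    · intro i j k
      rw [coeff_add, coeff_add, map_add, map_add, h2]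
      congr 1
      · congr 1
        by_cases h : i = s ∧ j = s
        · rw [if_pos h, coeff_C]
          split_ifs
          · exact hc
          · exact map_zero _
        · rw [if_neg h, coeff_zero, map_zero]
      · by_cases hi : i = s
        · rw [if_pos hi]; exact hNτ j k
        · rw [if_neg hi, coeff_zero, map_zero]
    · intro i j k hk
      rw [List.length_cons] at hk
      have hk0 : k ≠ 0 := by omega
      rw [coeff_add, coeff_add, h3 _ _ _ (by omega)]
      have e1 : (if i = s ∧ j = s then C c else 0 : K[X]).coeff k = 0 := by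
        by_cases h : i = s ∧ j = s
        · rw [if_pos h, coeff_C, if_neg hk0]
        · rw [if_neg h, coeff_zero]
      have e2 : (if i = s then N j else 0 : K[X]).coeff k = 0 := by
        by_cases h : i = s
        · rw [if_pos h]; exact hN3 j k hk
        · rw [if_neg h, coeff_zero]
      rw [e1, e2]; simp
    · intro i j
      rw [List.length_cons, coeff_add, coeff_add, h3 _ _ _ le_rfl]
      have e1 : (if i = s ∧ j = s then C c else 0 : K[X]).coeff (l'.length + 1) = 0 := by
        by_cases h : i = s ∧ j = s
        · rw [if_pos h, coeff_C, if_neg (by omega)]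
        · rw [if_neg h, coeff_zero]
      rw [e1, zero_add, zero_add]
      by_cases hi : i = s
      · rw [if_pos hi, hN4]
        by_cases hj : j = j₀ <;> simp [hi, hj]
      · rw [if_neg hi, coeff_zero, if_neg (fun h => hi h.1)]

/-- XT-W -/
theorem stGirth : StGirth := by
  intro K _ m F l hw hl hlen hprod
  obtain ⟨p, l, rfl⟩ := List.exists_cons_of_ne_nil hl
  obtain ⟨M, h1, h2, h3, j₀, κ, hκ, h4⟩ := key F l p hw
  have h5 : (M p.1 j₀).eval F.θ = 0 := by
    rw [h1, hprod, mat_one]
    rfl
  have h6 : (M p.1 j₀).natDegree < m := by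
    rw [List.length_cons] at hlen
    refine lt_of_le_of_lt ?_ (Nat.lt_of_succ_le hlen)
    rw [natDegree_le_iff_coeff_eq_zero]
    intro k hk
    exact h3 _ _ _ hk
  have h7 := F.gen (M p.1 j₀) (h2 _ _) h6 h5
  have h8 := h4 p.1 j₀
  rw [h7, coeff_zero, if_pos ⟨rfl, rfl⟩] at h8
  exact hκ h8.symm

end Pool.Agent.Helper45.FL
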